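import Pool.Agent.Helper83.CO.St
import Pool.Agent.Helper53.CX.M_Sum

/-!
# Project CO, module PRI: the defect of the coordinates and of the torus primes
-/

set_option autoImplicit false

open scoped BigOperators
open MvPolynomial

namespace Pool.Agent.Helper62.CO

open Pool.Agent.Helper53.CX Pool.Agent.Helper83.CO

private theorem sum_crit_pri {P : Finset ℂ} (h0 : (0 : ℂ) ∉ P) (g : Option ℂ → ℤ) :
    ∑ s ∈ crit P, g s = g none + (g (some 0) + ∑ p ∈ P, g (some p)) := by
  unfold crit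
  rw [Finset.sum_insert, Finset.sum_insert, Finset.sum_image]
  · intro a _ b _ h
    exact Option.some.inj h
  · intro h
    rw [Finset.mem_image] at h
    obtain ⟨a, ha, hb⟩ := h
    rw [Option.some.inj hb] at ha
    exact h0 ha
  · intro h
    rw [Finset.mem_insert, Finset.mem_image] at h
    rcases h with h | ⟨a, -, h⟩
    · exact absurd h (by simp)
    · exact absurd h (by simp)

private theorem none_mem_pri (P : Finset ℂ) : none ∈ crit P := Finset.mem_insert_self _ _

private theorem zero_mem_pri (P : Finset ℂ) : some 0 ∈ crit P :=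
  Finset.mem_insert_of_mem (Finset.mem_insert_self _ _)

private theorem some_mem_pri {P : Finset ℂ} {p : ℂ} (hp : p ∈ P) : some p ∈ crit P :=
  Finset.mem_insert_of_mem (Finset.mem_insert_of_mem (Finset.mem_image_of_mem _ hp))

private theorem slice_pri {k : ℕ} {P : Finset ℂ} {D : Finset (Option ℂ × (Fin (k + 1) → ℤ))}
    (A : Adm P D) (hC : IsC1 P D) (g : Option ℂ → ℤ) :
    ∑ e ∈ D, (A.la e : ℤ) * (e.2 0 * g e.1) =
      A.d * ∑ s ∈ crit P, g s + A.κ * (A.w 0 * g A.s₀) := by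
  have h1 : ∑ e ∈ D, (A.la e : ℤ) * (e.2 0 * g e.1) =
      ∑ s ∈ crit P, ∑ e ∈ D.filter (fun e => e.1 = s), (A.la e : ℤ) * (e.2 0 * g e.1) :=
    (Finset.sum_fiberwise_of_maps_to (fun e he => (hC.mem e he).1) _).symm
  have h2 : ∀ s ∈ crit P, ∑ e ∈ D.filter (fun e => e.1 = s), (A.la e : ℤ) * (e.2 0 * g e.1) =
      (A.d : ℤ) * g s + if s = A.s₀ then A.κ * (A.w 0 * g s) else 0 := by
    intro s hs
    have h3 : ∑ e ∈ D.filter (fun e => e.1 = s), (A.la e : ℤ) * (e.2 0 * g e.1) =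
        (∑ e ∈ D.filter (fun e => e.1 = s), (A.la e : ℤ) * e.2 0) * g s := by
      rw [Finset.sum_mul]
      refine Finset.sum_congr rfl fun e he => ?_
      rw [(Finset.mem_filter.1 he).2]
      ring
    rw [h3, A.base s hs]
    split_ifs <;> ring
  rw [h1, Finset.sum_congr rfl h2, Finset.sum_add_distrib, ← Finset.mul_sum, Finset.sum_ite_eq',
    if_pos A.hs]

private theorem pad_pri (hExt : StExt) (hPad : StPad) {n : ℕ} {R Q : Pn n} (hR : Irreducible R)
    (hQ : Irreducible Q) (h : ¬ Associated Q R) :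
    padOrd R (algebraMap (Pn n) (Kn n) Q) = 0 := by
  obtain ⟨h1, h2, h3⟩ := hPad n R hR
  obtain ⟨-, -, -, h4⟩ := hExt n (fun p => (multiplicity R p : ℤ))
    (fun p q hp hq => by
      show (multiplicity R (p * q) : ℤ) = _
      rw [h1 p q hp hq]
      push_cast
      rfl)
    (fun p q hp hq hpq => by
      have := h2 p q hp hq hpq
      show min (multiplicity R p : ℤ) (multiplicity R q : ℤ) ≤ (multiplicity R (p + q) : ℤ)
      exact_mod_cast this)
  have h5 : padOrd R (algebraMap (Pn n) (Kn n) Q) = (multiplicity R Q : ℤ) := h4 Q hQ.ne_zero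
  rw [h5]
  have h6 : ¬ R ∣ Q := fun hd => h ((hR.associated_of_dvd hQ hd).symm)
  rw [h3 Q hQ.ne_zero] at h6
  have : multiplicity R Q = 0 := by omega
  rw [this]
  rfl

theorem hPRI (hUNI : StUNI) (hTOR : StTOR) (hPDC : StPDC) (hTRM : StTRM) (hCOR : StCOR)
    (hBND : StBND) (hExt : StExt) (hPad : StPad) (hTorV : StTorV) (hPadV : StPadV)
    (hMonL : StMonL) : StPRI := by
  intro k P D A hC
  obtain ⟨-, hU2, hU3, -, hU5, he1, he2, he3⟩ := hUNI k
  have hlam : ∀ φ : DivVal (Kn (k + 1)) → ℤ,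
      A.Lam φ = ∑ e ∈ D, (A.la e : ℤ) * φ (A.vd e) - A.κ * φ A.v' := fun φ => rfl
  refine ⟨?_, ?_, ?_⟩
  · intro j
    rw [hlam]
    refine Fin.cases ?_ (fun i => ?_) j
    · have h1 : ∑ e ∈ D, (A.la e : ℤ) * (A.vd e).ord (x 0) =
          ∑ e ∈ D, (A.la e : ℤ) * (e.2 0 * eps e.1) :=
        Finset.sum_congr rfl fun e he => by rw [(hU3 _ _ _ (A.hvd e he)).1]
      have h2 : ∑ s ∈ crit P, eps s = 0 := by
        rw [sum_crit_pri hC.zero, he1, he2]
        have : ∑ p ∈ P, eps (some p) = 0 :=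
          Finset.sum_eq_zero fun p hp => he3 p (fun h => hC.zero (h ▸ hp))
        rw [this]
        norm_num
      rw [h1, slice_pri A hC eps, h2, (hU3 _ _ _ A.hv').1]
      ring
    · have h1 : ∑ e ∈ D, (A.la e : ℤ) * (A.vd e).ord (x i.succ) =
          ∑ e ∈ D, (A.la e : ℤ) * e.2 i.succ :=
        Finset.sum_congr rfl fun e he => by rw [(hU3 _ _ _ (A.hvd e he)).2 i]
      rw [h1, A.tor i, (hU3 _ _ _ A.hv').2 i]
      ring
  · intro p hp
    have hp0 : p ≠ 0 := fun h => hC.zero (h ▸ hp)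
    rw [hlam]
    have h1 : ∑ e ∈ D, (A.la e : ℤ) * (A.vd e).ord (x 0 - algebraMap ℂ (Kn (k + 1)) p) =
        ∑ e ∈ D, (A.la e : ℤ) * (e.2 0 * zs e.1 (Polynomial.X - Polynomial.C p)) :=
      Finset.sum_congr rfl fun e he => by rw [hU2 _ _ _ p (A.hvd e he)]
    have h2 : ∑ s ∈ crit P, zs s (Polynomial.X - Polynomial.C p) = 0 := by
      obtain ⟨a1, a2, a3⟩ := hU5 p
      rw [sum_crit_pri hC.zero, a1, a3 0 hp0.symm, Finset.sum_eq_single p, a2]
      · norm_num
      · intro q _ hq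
        exact a3 q hq
      · intro h
        exact absurd hp h
    rw [h1, slice_pri A hC (fun s => zs s (Polynomial.X - Polynomial.C p)), h2,
      hU2 _ _ _ p A.hv']
    ring
  · intro Q hQ hQP
    obtain ⟨f, hf⟩ : ∃ f : Kn (k + 1), f = algebraMap (Pn (k + 1)) (Kn (k + 1)) Q := ⟨_, rfl⟩
    rw [← hf]
    have hf0 : f ≠ 0 := hf ▸ Sum_alg_ne Q hQ.1.ne_zero
    obtain ⟨T, hT⟩ := hTRM k P f hC.zero (hf ▸ Sum_laurent Q) hf0
    obtain ⟨t, htT, hL, hσ, hnn⟩ := hCOR k P D A f T hC hT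
    by_contra hcon
    have hL0 : 0 ≤ A.Lam (fun v => v.ord f) := by omega
    have hd1 : (1 : ℤ) ≤ A.d := by exact_mod_cast A.hd
    have hS0 : 0 ≤ ∑ e ∈ D, (A.la e : ℤ) * (pr e.2 (t.1 e.1) t.2 - (A.vd e).ord f) :=
      Finset.sum_nonneg fun e he => mul_nonneg (Int.natCast_nonneg _) (hnn e he)
    have hdσ : (A.d : ℤ) * ∑ s ∈ crit P, t.1 s ≤ 0 := mul_nonpos_of_nonneg_of_nonpos (by omega) hσ
    have hσ0 : ∑ s ∈ crit P, t.1 s = 0 := by
      have h1 : (A.d : ℤ) * ∑ s ∈ crit P, t.1 s = 0 := by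
        rw [hL] at hL0
        omega
      rcases mul_eq_zero.1 h1 with h | h
      · omega
      · exact h
    have hS1 : ∑ e ∈ D, (A.la e : ℤ) * (pr e.2 (t.1 e.1) t.2 - (A.vd e).ord f) = 0 := by
      rw [hL] at hL0
      omega
    have heq : ∀ e ∈ D, pr e.2 (t.1 e.1) t.2 = (A.vd e).ord f := by
      intro e he
      have h1 := (Finset.sum_eq_zero_iff_of_nonneg fun e he =>
        mul_nonneg (Int.natCast_nonneg (A.la e)) (hnn e he)).1 hS1 e he
      have h2 : (1 : ℤ) ≤ A.la e := by exact_mod_cast A.hla e he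
      rcases mul_eq_zero.1 h1 with h | h
      · omega
      · omega
    obtain ⟨C₀, -, hB⟩ := hBND k P D hC
    have hT' : ∀ t' ∈ T, (∀ s ∈ crit P, t'.1 s = t.1 s) ∧ ∀ j, t'.2 j = t.2 j := by
      intro t' ht'
      have h1 : ∀ e ∈ D, -(0 : ℝ) ≤ prR e.2 ((fun s => (t'.1 s : ℝ) - t.1 s) e.1)
          (fun j => (t'.2 j : ℝ) - t.2 j) := by
        intro e he
        have h2 := (hT.2 e.1 e.2 (A.vd e) (hC.mem e he).2.1 (A.hvd e he)).1 t' ht'
        rw [← heq e he] at h2
        have h3 : (0 : ℝ) ≤ (pr e.2 (t'.1 e.1) t'.2 : ℝ) - (pr e.2 (t.1 e.1) t.2 : ℝ) := by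
          have : (pr e.2 (t.1 e.1) t.2 : ℝ) ≤ (pr e.2 (t'.1 e.1) t'.2 : ℝ) := by exact_mod_cast h2
          linarith
        have h4 : prR e.2 ((fun s => (t'.1 s : ℝ) - t.1 s) e.1)
            (fun j => (t'.2 j : ℝ) - t.2 j) =
            (pr e.2 (t'.1 e.1) t'.2 : ℝ) - (pr e.2 (t.1 e.1) t.2 : ℝ) := by
          unfold prR pr
          push_cast
          have h5 : ∑ j : Fin k, (e.2 j.succ : ℝ) * ((t'.2 j : ℝ) - t.2 j) =
              ∑ j : Fin k, (e.2 j.succ : ℝ) * (t'.2 j : ℝ) -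
                ∑ j : Fin k, (e.2 j.succ : ℝ) * (t.2 j : ℝ) := by
            rw [← Finset.sum_sub_distrib]
            exact Finset.sum_congr rfl fun j _ => by ring
          rw [h5]
          ring
        rw [h4, neg_zero]
        exact h3
      have h6 : ∑ s ∈ crit P, (fun s => (t'.1 s : ℝ) - t.1 s) s ≤ 0 := by
        rw [Finset.sum_sub_distrib]
        have h7 := hT.1 t' ht'
        have h8 : (∑ s ∈ crit P, (t'.1 s : ℝ)) ≤ 0 := by exact_mod_cast h7
        have h9 : (∑ s ∈ crit P, (t.1 s : ℝ)) = 0 := by exact_mod_cast hσ0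
        linarith
      obtain ⟨b1, b2⟩ := hB _ _ 0 le_rfl h1 h6
      refine ⟨fun s hs => ?_, fun j => ?_⟩
      · have := b1 s hs
        rw [mul_zero] at this
        have h7 := abs_eq_zero.1 (le_antisymm this (abs_nonneg _))
        have h8 : (t'.1 s : ℝ) = t.1 s := by
          have h9 : (t'.1 s : ℝ) - t.1 s = 0 := h7
          linarith
        exact_mod_cast h8
      · have := b2 j
        rw [mul_zero] at this
        have h7 := abs_eq_zero.1 (le_antisymm this (abs_nonneg _))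
        have h8 : (t'.2 j : ℝ) = t.2 j := by linarith
        exact_mod_cast h8
    have hval : ∀ (s : Option ℂ) (a : Fin (k + 1) → ℤ) (v : DivVal (Kn (k + 1))), s ∈ crit P →
        0 ≤ a 0 → IsVal v s a → v.ord f = pr a (t.1 s) t.2 := by
      intro s a v hs ha hv
      obtain ⟨t', ht', h1⟩ := (hT.2 s a v ha hv).2
      obtain ⟨h2, h3⟩ := hT' t' ht'
      rw [h1, h2 s hs]
      unfold pr
      congr 1
      exact Finset.sum_congr rfl fun j _ => by rw [h3 j]
    obtain ⟨hP1, hP2, -⟩ := hPDC k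
    have hzero : ∀ p ∈ P, t.1 (some p) = 0 := by
      intro p hp
      have hp0 : p ≠ 0 := fun h => hC.zero (h ▸ hp)
      obtain ⟨⟨v, hv⟩, -⟩ := hPadV (k + 1) (X 0 - C p) (hP1 p hp0).1
      have hv2 := (hP2 p v hp0).1 hv
      have h1 := hval (some p) _ v (some_mem_pri hp) (by simp) hv2
      have h2 : v.ord f = 0 := by
        rw [hv, hf]
        exact pad_pri hExt hPad (hP1 p hp0).1 hQ.1 (hQP p hp)
      rw [h2] at h1
      unfold pr at h1
      simp only [Pi.single_eq_same, one_mul] at h1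
      have h3 : ∑ j : Fin k, (Pi.single 0 1 : Fin (k + 1) → ℤ) j.succ * t.2 j = 0 :=
        Finset.sum_eq_zero fun j _ => by
          rw [Pi.single_eq_of_ne (Fin.succ_ne_zero j), zero_mul]
      rw [h3, add_zero] at h1
      exact h1.symm
    have hinf : t.1 none = - t.1 (some 0) := by
      rw [sum_crit_pri hC.zero, Finset.sum_eq_zero hzero] at hσ0
      omega
    obtain ⟨hM1, -, -, hM4⟩ := hMonL (k + 1)
    refine hM4 Q hQ (Fin.cons (t.1 (some 0)) t.2) fun b => ?_
    rw [← hf]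
    by_cases hb : b = 0
    · have h1 := hM1 0 b f
      rw [Nat.cast_zero, zero_smul, zero_mul] at h1
      rw [hb, h1]
      simp
    · obtain ⟨κ', b', u, -, hbb, hu⟩ := Sum_prim b hb
      have h1 := hM1 κ' b' f
      rw [← hbb] at h1
      obtain ⟨v, hv⟩ := hTorV (k + 1) b' u hu
      obtain ⟨hT1, hT2, -, -⟩ := hTOR k v
      have key : monOrd b' f = b' 0 * t.1 (some 0) + ∑ j, b' j.succ * t.2 j := by
        rw [← hv]
        rcases le_total 0 (b' 0) with hb0 | hb0
        · exact hval _ _ v (zero_mem_pri P) hb0 (hT1 b' hv hb0)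
        · have h2 := hval _ _ v (none_mem_pri P) (by
            rw [Function.update_self]
            omega) (hT2 b' hv hb0)
          rw [h2]
          unfold pr
          rw [Function.update_self, hinf]
          have h4 : ∑ j : Fin k, Function.update b' 0 (-b' 0) j.succ * t.2 j =
              ∑ j : Fin k, b' j.succ * t.2 j :=
            Finset.sum_congr rfl fun j _ => by rw [Function.update_of_ne (Fin.succ_ne_zero j)]
          rw [h4]
          ring
      rw [h1, key, Fin.sum_univ_succ, Fin.cons_zero]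
      have h3 : ∀ j, b j = κ' * b' j := fun j => by
        rw [hbb]
        rfl
      rw [h3 0, mul_add, Finset.mul_sum]
      have h4 : ∑ j : Fin k, (Fin.cons (t.1 (some 0)) t.2 : Fin (k + 1) → ℤ) j.succ * b j.succ =
          ∑ j : Fin k, (κ' : ℤ) * (b' j.succ * t.2 j) :=
        Finset.sum_congr rfl fun j _ => by
          rw [Fin.cons_succ, h3]
          ring
      rw [h4]
      ring

end Pool.Agent.Helper62.CO
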